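import Mathlib
import Pool.Agent.H379R3.CDQ.Stmts

/-!
# Project CDQ, task Spr: Springer's theorem for the explicit form in six variables
-/

set_option autoImplicit false

namespace Pool.Agent.H271CDQ

open Pool.Agent.H379R3.CDQ Polynomial

variable {K : Type} [Field K]

theorem odd_factor : ∀ (n : ℕ) (h : K[X]), h.natDegree = n → Odd n →
    ∃ g : K[X], Irreducible g ∧ Odd g.natDegree ∧ g ∣ h := by
  intro n
  induction n using Nat.strong_induction_on with
  | _ n ih =>
    intro h hn hodd
    have hpos : 0 < n := hodd.pos
    have h0 : h ≠ 0 := by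
      rintro rfl
      simp at hn
      omega
    have hnu : ¬ IsUnit h := by
      intro hu
      have := natDegree_eq_zero_of_isUnit hu
      omega
    obtain ⟨g, hg, k, hk⟩ := WfDvdMonoid.exists_irreducible_factor hnu h0
    have hk0 : k ≠ 0 := by
      rintro rfl
      exact h0 (by rw [hk, mul_zero])
    have hdeg : n = g.natDegree + k.natDegree := by
      rw [← hn, hk, natDegree_mul hg.ne_zero hk0]
    by_cases hgo : Odd g.natDegree
    · exact ⟨g, hg, hgo, k, hk⟩
    · have hgpos : 0 < g.natDegree := hg.natDegree_pos
      have hko : Odd k.natDegree := by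
        rw [hdeg, Nat.odd_add] at hodd
        by_contra hc
        rw [Nat.not_odd_iff_even] at hc
        exact hgo (hodd.mpr hc)
      obtain ⟨g', h1, h2, h3⟩ := ih k.natDegree (by omega) k rfl hko
      exact ⟨g', h1, h2, h3.trans ⟨g, by rw [hk, mul_comm]⟩⟩

theorem coeff_qf (a b : K) (s : Fin 6 → K[X]) (m : ℕ) (hs : ∀ i, (s i).natDegree ≤ m) :
    (qf (C a) (C b) s).coeff (m + m) = qf a b (fun i => (s i).coeff m) := by
  unfold qf
  simp only [coeff_add, pow_two, coeff_C_mul]
  rw [coeff_mul_add_eq_of_natDegree_le (hs 0) (hs 0), coeff_mul_add_eq_of_natDegree_le (hs 0) (hs 1),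
    coeff_mul_add_eq_of_natDegree_le (hs 1) (hs 1), coeff_mul_add_eq_of_natDegree_le (hs 2) (hs 2),
    coeff_mul_add_eq_of_natDegree_le (hs 2) (hs 3), coeff_mul_add_eq_of_natDegree_le (hs 3) (hs 3),
    coeff_mul_add_eq_of_natDegree_le (hs 4) (hs 4), coeff_mul_add_eq_of_natDegree_le (hs 4) (hs 5),
    coeff_mul_add_eq_of_natDegree_le (hs 5) (hs 5)]

theorem natDegree_qf (a b : K) (s : Fin 6 → K[X]) (m : ℕ) (hs : ∀ i, (s i).natDegree ≤ m) :
    (qf (C a) (C b) s).natDegree ≤ m + m := by
  have hm : ∀ i j, (s i * s j).natDegree ≤ m + m := fun i j =>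
    natDegree_mul_le_of_le (hs i) (hs j)
  have hc : ∀ (c : K) (f : K[X]), f.natDegree ≤ m + m → (C c * f).natDegree ≤ m + m :=
    fun c f hf => (natDegree_C_mul_le c f).trans hf
  unfold qf
  simp only [pow_two]
  refine natDegree_add_le_of_degree_le (natDegree_add_le_of_degree_le
    (natDegree_add_le_of_degree_le (natDegree_add_le_of_degree_le (hm 0 0) (hm 0 1)) (hm 1 1))
    (hc _ _ (natDegree_add_le_of_degree_le (natDegree_add_le_of_degree_le (hm 2 2) (hm 2 3))
      (hm 3 3))))
    (hc _ _ (natDegree_add_le_of_degree_le (natDegree_add_le_of_degree_le (hm 4 4) (hm 4 5))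
      (hm 5 5)))

theorem qf_mul {R : Type} [CommRing R] (a b c : R) (t : Fin 6 → R) :
    qf a b (fun i => c * t i) = c ^ 2 * qf a b t := by
  unfold qf
  ring

theorem main {a b : K} (hA : Anis K a b) : ∀ (n : ℕ) (p : K[X]), Irreducible p →
    p.natDegree = n → Odd n → ∀ u : Fin 6 → K[X], p ∣ qf (C a) (C b) u → ∀ i, p ∣ u i := by
  intro n
  induction n using Nat.strong_induction_on with
  | _ n ih =>
    intro p hp hpn hodd u hu
    have hnpos : 0 < n := hodd.pos
    have inner : ∀ (m : ℕ) (s : Fin 6 → K[X]), (∀ i, (s i).natDegree ≤ m) → m < n →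
        p ∣ qf (C a) (C b) s → s = 0 := by
      intro m
      induction m using Nat.strong_induction_on with
      | _ m ihm =>
        intro s hs hmn hps
        by_cases hc : (fun i => (s i).coeff m) = 0
        · rcases Nat.eq_zero_or_pos m with hm0 | hm0
          · subst hm0
            funext i
            have h1 := congrFun hc i
            simp only [Pi.zero_apply] at h1
            have h2 := eq_C_of_natDegree_le_zero (hs i)
            rw [h2, h1, C_0]
            rfl
          · refine ihm (m - 1) (by omega) s (fun i => ?_) (by omega) hps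
            have h1 := congrFun hc i
            simp only [Pi.zero_apply] at h1
            have h3 := hs i
            by_contra h2
            have h4 : (s i).natDegree = m := by omega
            have h5 : (s i).leadingCoeff = 0 := by
              rw [leadingCoeff, h4]
              exact h1
            rw [leadingCoeff_eq_zero] at h5
            rw [h5, natDegree_zero] at h4
            omega
        · exfalso
          have hne : qf a b (fun i => (s i).coeff m) ≠ 0 := fun h => hc (hA _ h)
          rw [← coeff_qf a b s m hs] at hne
          have hdeg : (qf (C a) (C b) s).natDegree = m + m :=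
            natDegree_eq_of_le_of_coeff_ne_zero (natDegree_qf a b s m hs) hne
          have hq0 : qf (C a) (C b) s ≠ 0 := by
            intro h
            rw [h] at hne
            simp at hne
          obtain ⟨h, hh⟩ := hps
          have hh0 : h ≠ 0 := by
            rintro rfl
            exact hq0 (by rw [hh, mul_zero])
          have hd2 : m + m = n + h.natDegree := by
            rw [← hdeg, hh, natDegree_mul hp.ne_zero hh0, hpn]
          have hho : Odd h.natDegree := by
            have he : Even (n + h.natDegree) := ⟨m, hd2.symm⟩
            rw [Nat.even_add'] at he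
            exact he.mp hodd
          obtain ⟨g, hg, hgo, hgh⟩ := odd_factor _ h rfl hho
          have hgle : g.natDegree ≤ h.natDegree := natDegree_le_of_dvd hgh hh0
          have hgs : ∀ i, g ∣ s i := by
            refine ih g.natDegree (by omega) g hg rfl hgo s ?_
            rw [hh]
            exact hgh.mul_left p
          choose t ht using hgs
          have hst : s = fun i => g * t i := funext ht
          have hpt : p ∣ qf (C a) (C b) t := by
            have h1 : p ∣ g ^ 2 * qf (C a) (C b) t := by
              rw [← qf_mul, ← hst, hh]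
              exact dvd_mul_right _ _
            rcases hp.prime.dvd_or_dvd h1 with h2 | h2
            · exfalso
              have h3 := hp.prime.dvd_of_dvd_pow h2
              have h4 := natDegree_le_of_dvd h3 hg.ne_zero
              omega
            · exact h2
          have hgpos : 0 < g.natDegree := hg.natDegree_pos
          have hm1 : 1 ≤ m := by omega
          have ht0 : t = 0 := by
            refine ihm (m - 1) (by omega) t (fun i => ?_) (by omega) hpt
            by_cases hti : t i = 0
            · rw [hti, natDegree_zero]
              exact Nat.zero_le _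
            · have h1 := hs i
              rw [ht i, natDegree_mul hg.ne_zero hti] at h1
              omega
          apply hc
          funext i
          rw [ht i, ht0]
          simp
    -- reduce modulo `p`
    have hr : p ∣ qf (C a) (C b) (fun i => u i % p) := by
      have h1 : ∀ i, u i % p = u i - p * (u i / p) := by
        intro i
        rw [eq_sub_iff_add_eq]
        exact EuclideanDomain.mod_add_div (u i) p
      have h2 : p ∣ qf (C a) (C b) u - qf (C a) (C b) (fun i => u i % p) := by
        simp only [h1]
        unfold qf
        refine ⟨(2 * u 0 * (u 0 / p) - p * (u 0 / p) ^ 2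
          + (u 0 * (u 1 / p) + u 1 * (u 0 / p) - p * (u 0 / p) * (u 1 / p))
          + (2 * u 1 * (u 1 / p) - p * (u 1 / p) ^ 2))
          + C a * (2 * u 2 * (u 2 / p) - p * (u 2 / p) ^ 2
          + (u 2 * (u 3 / p) + u 3 * (u 2 / p) - p * (u 2 / p) * (u 3 / p))
          + (2 * u 3 * (u 3 / p) - p * (u 3 / p) ^ 2))
          + C b * (2 * u 4 * (u 4 / p) - p * (u 4 / p) ^ 2
          + (u 4 * (u 5 / p) + u 5 * (u 4 / p) - p * (u 4 / p) * (u 5 / p))
          + (2 * u 5 * (u 5 / p) - p * (u 5 / p) ^ 2)), ?_⟩
        ring
      exact (dvd_sub_right hu).mp h2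
    have hz := inner (n - 1) (fun i => u i % p) (fun i => by
      have := natDegree_mod_lt (u i) (q := p) (by omega)
      omega) (by omega) hr
    intro i
    have h1 := congrFun hz i
    simp only [Pi.zero_apply] at h1
    exact (EuclideanDomain.mod_eq_zero).mp h1

theorem taskSpr : TaskSpr := by
  intro K _ a b hA L _ _ _ _ hodd v hv
  let pb := Field.powerBasisOfFiniteOfSeparable K L
  have hu : ∀ i, ∃ f : K[X], v i = aeval pb.gen f := fun i => pb.exists_eq_aeval' (v i)
  choose u hu using hu
  have hirr : Irreducible (minpoly K pb.gen) := minpoly.irreducible pb.isIntegral_gen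
  have hdeg : Odd (minpoly K pb.gen).natDegree := by
    rw [pb.natDegree_minpoly, ← pb.finrank]
    exact hodd
  have hdvd : minpoly K pb.gen ∣ qf (C a) (C b) u := by
    rw [minpoly.dvd_iff]
    rw [← hv]
    unfold qf
    simp only [map_add, map_mul, map_pow, aeval_C, hu]
  have h := main hA _ _ hirr rfl hdeg u hdvd
  funext i
  rw [hu i, Pi.zero_apply]
  exact (minpoly.dvd_iff).mp (h i)

end Pool.Agent.H271CDQ
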